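import Pool.Agent.Helper449.MST.U

/-!
# A wild linear quotient singularity whose stringy motive is not rational in `L^{1/|G|}`

`K` is an algebraic closure of `𝔽₃`, `G = (ℤ/3)³`, and `G` acts on `K^{600}`, as `100` copies of
`K³ × K³`, by `(x, y) ↦ (x, y + M(g) x)` (the matrices `rep 100 g`). By Yasuda's formula the
stringy motive of `K^{600} / G` is `∑_a {v⁻¹(a)} L^{600 - a}`, `a ∈ (1/27)ℤ`. Here the `G`-torsors
over `Spec K((t))` are parametrised by `ℕ →₀ K` (Artin-Schreier theory: `fser`), `v27 100 F` is
`27 v(F)` (computed from the ring of integers of the torsor algebra and the tuning module), and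
`stringy 100 n` is the sum of the terms with `a ≤ n / 27`.
-/

namespace Pool.Agent.Results.MP_536a45_ag.NotRational

open Pool.Agent.Helper449.MST

/-- The action of `G = (ℤ/3)³` on `K^{600}` is linear and faithful, and the fixed locus of every
`g ≠ 0` has codimension `300`: there is no pseudo-reflection. -/
def ActionOk : Prop :=
  Fintype.card (Idx 100) = 600 ∧ (∀ g h, rep 100 (g + h) = rep 100 g * rep 100 h) ∧
    Function.Injective (rep 100) ∧ ∀ g, g ≠ 0 → (rep 100 g - 1).rank = 300

/-- Every class of `(K((t)) / ℘ K((t)))³`, `℘ h = h³ - h`, that is every `G`-torsor over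
`Spec K((t))`, is that of exactly one `F`. -/
def TorsorsOk : Prop :=
  ∀ f : Fin 3 → LaurentSeries K, ∃! F : ℕ →₀ K, ∃ h : Fin 3 → LaurentSeries K,
    ∀ l, f l - fser F l = h l ^ 3 - h l

/-- `v` is finite, and all torsors with `v = b / 27` lie in the space `K^b` in which the level
set `levelY 100 b` is taken. -/
def LevelsOk : Prop :=
  ∀ F, v27 100 F ≠ ⊤ ∧ ∀ b : ℕ, v27 100 F = b → ∀ i, b ≤ i → F i = 0

theorem result : ActionOk ∧ TorsorsOk ∧ LevelsOk ∧
    -- the stringy motive is finite,
    ConvergesMod relSub (stringy 100) ∧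
    -- and it is not a rational function in `L^{1/27}`,
    ¬ RationalMod relSub (stringy 100) ∧
    -- not even if universally homeomorphic varieties are identified.
    ¬ RationalMod relSubUH (stringy 100) := by
  refine ⟨⟨by simp [Fintype.card_prod, Fintype.card_sum], rep_add 100, rep_injective 100 (by norm_num), ?_⟩, torsor_param, ?_,
    stringy_converges, ?_, stringy_not_rational⟩
  · intro g hg
    rw [rep_rank 100 g hg]
  · intro F
    refine ⟨?_, fun b hb i hi => support_Y F b hb i hi⟩
    rw [v27_eq]
    exact ENat.coe_ne_top _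
  · intro h
    exact stringy_not_rational (rationalMod_mono relSub_le _ h)

end Pool.Agent.Results.MP_536a45_ag.NotRational
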